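import Pool.Agent.Helper75.OE.GoalsB2

set_option autoImplicit false

namespace Pool.Agent.Helper14.OE

open Pool.Agent.Helper73.OE Pool.Agent.Helper73.OE.Sys Pool.Agent.Helper75.OE Finset
open scoped ENNReal

theorem l74 : B_PL74 := by
  classical
  intro hlow hrec hind H S L _ _ X P t ζ κ O Sb q o C Sp k hζ hκ hCT
  refine (hlow H S L X P t ζ κ O Sb q o C Sp k hζ hκ hCT).trans ?_
  rw [(hrec H S L X o C (wz X t ζ κ Sb o C Sp) hCT.pc).2]
  have hpar : ∀ c, X.dist o (X.nb o c) = X.dist o o + 1 := by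
    intro c
    rw [X.dist_self, X.dist_nb_self]
  unfold YR
  refine le_trans ?_ (le_iSup _ (C.sup (fun x => X.dist o x) + 1))
  rw [wz, if_pos hCT.root, mul_assoc, mul_assoc]
  refine mul_le_mul_right (mul_le_mul_right ?_ _) _
  rw [← Finset.prod_mul_distrib]
  refine Finset.prod_le_prod' fun c _ => ?_
  by_cases hc : X.nb o c ∈ C
  · rw [if_pos hc]
    have key : ∏ x ∈ C.filter (fun x => x ∈ X.Sd (X.nb o c) (X.bar c)),
        wz X t ζ κ Sb o C Sp x ≤
          X.YY O Sb q t ζ κ (C.sup (fun x => X.dist o x) + 1) (X.nb o c) (X.bar c) (X.e0 c) := by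
      refine hind H S L X P t ζ κ O Sb q o C Sp k hCT _ (X.nb o c) (X.bar c) hc ?_ ?_ _ ?_
      · rw [X.nb_bar]
        exact hpar c
      · intro x hx hx2
        rw [X.mem_Sd, X.nb_bar] at hx2
        have : X.dist o x ≤ C.sup (fun x => X.dist o x) :=
          Finset.le_sup (f := fun x => X.dist o x) hx
        omega
      · intro r' hr'
        rw [X.nb_bar, X.dist_self] at hr'
        omega
    refine le_trans ?_ le_add_self
    refine mul_le_mul' ?_ key
    by_cases hs : Sb o c
    · rw [if_pos hs]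
      split_ifs
      · exact le_rfl
      · exact hκ
    · rw [if_neg hs, if_neg (fun h => hs h.2.2)]
  · rw [if_neg hc, if_neg (fun h => hc h.1), one_mul]
    exact le_self_add

end Pool.Agent.Helper14.OE
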