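import Pool.Agent.Helper78.OE.NumC

set_option autoImplicit false

namespace Pool.Agent.Helper14.OE

open Pool.Agent.Helper78.OE

/-- the dyadic scales -/
noncomputable def bb (l : ℕ) : ℝ := (1 / 2 : ℝ) ^ (12 * l)

theorem bb_pos (l : ℕ) : 0 < bb l := by unfold bb; positivity

theorem bb_lt {l m : ℕ} (h : l < m) : bb m < bb l := by
  unfold bb
  exact pow_lt_pow_right_of_lt_one₀ (by norm_num) (by norm_num) (by omega)

theorem bb_le {l m : ℕ} (h : l ≤ m) : bb m ≤ bb l := by
  rcases h.lt_or_eq with h | h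
  · exact (bb_lt h).le
  · rw [h]

theorem bb_small (δ : ℝ) (hδ : 0 < δ) : ∃ L, bb L < δ := by
  obtain ⟨n, hn⟩ := exists_pow_lt_of_lt_one hδ (show (1 / 2 : ℝ) < 1 by norm_num)
  refine ⟨n, lt_of_le_of_lt ?_ hn⟩
  unfold bb
  exact pow_le_pow_of_le_one (by norm_num) (by norm_num) (by omega)

open Classical in
/-- one step -/
noncomputable def stp (θ : ℕ → ℝ) (s : ℕ × ℝ) : ℕ × ℝ :=
  if θ s.1 < s.2 - bb (s.1 + 1) then (s.1, s.2 - θ s.1) else (s.1 + 1, bb (s.1 + 1))

noncomputable def st (θ : ℕ → ℝ) : ℕ → ℕ × ℝ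
  | 0 => (0, 1)
  | n + 1 => stp θ (st θ n)

theorem inv (θ : ℕ → ℝ) (hθ : ∀ l, 0 < θ l) (n : ℕ) :
    bb ((st θ n).1 + 1) < (st θ n).2 ∧ (st θ n).2 ≤ bb (st θ n).1 := by
  induction n with
  | zero =>
    simp only [st, bb]
    norm_num
  | succ n ih =>
    simp only [st, stp]
    split_ifs with h
    · refine ⟨by simp only; linarith, ?_⟩
      have := hθ (st θ n).1
      simp only
      linarith [ih.2]
    · exact ⟨bb_lt (by omega), le_refl _⟩

theorem step_cases (θ : ℕ → ℝ) (n : ℕ) :
    (θ (st θ n).1 < (st θ n).2 - bb ((st θ n).1 + 1) ∧ (st θ (n + 1)).1 = (st θ n).1 ∧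
      (st θ (n + 1)).2 = (st θ n).2 - θ (st θ n).1) ∨
    ((st θ n).2 - bb ((st θ n).1 + 1) ≤ θ (st θ n).1 ∧ (st θ (n + 1)).1 = (st θ n).1 + 1 ∧
      (st θ (n + 1)).2 = bb ((st θ n).1 + 1)) := by
  by_cases h : θ (st θ n).1 < (st θ n).2 - bb ((st θ n).1 + 1)
  · left
    refine ⟨h, ?_, ?_⟩
    · simp only [st, stp, if_pos h]
    · simp only [st, stp, if_pos h]
  · right
    refine ⟨not_lt.1 h, ?_, ?_⟩
    · simp only [st, stp, if_neg h]
    · simp only [st, stp, if_neg h]

theorem st_lt (θ : ℕ → ℝ) (hθ : ∀ l, 0 < θ l) (n : ℕ) : (st θ (n + 1)).2 < (st θ n).2 := by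
  rcases step_cases θ n with h | h
  · rw [h.2.2]
    linarith [hθ (st θ n).1]
  · rw [h.2.2]
    exact (inv θ hθ n).1

theorem st_anti (θ : ℕ → ℝ) (hθ : ∀ l, 0 < θ l) : Antitone (fun n => (st θ n).2) :=
  antitone_nat_of_succ_le (fun n => (st_lt θ hθ n).le)

theorem l_mono (θ : ℕ → ℝ) : Monotone (fun n => (st θ n).1) := by
  apply monotone_nat_of_le_succ
  intro n
  rcases step_cases θ n with h | h
  · rw [h.2.1]
  · rw [h.2.1]; omega

theorem l_unb (θ : ℕ → ℝ) (hθ : ∀ l, 0 < θ l) (L : ℕ) : ∃ i, L ≤ (st θ i).1 := by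
  induction L with
  | zero => exact ⟨0, Nat.zero_le _⟩
  | succ L ih =>
    obtain ⟨i, hi⟩ := ih
    by_contra hcon
    push Not at hcon
    have hl : ∀ m, (st θ (i + m)).1 = L := by
      intro m
      have h1 : (st θ i).1 ≤ (st θ (i + m)).1 := l_mono θ (Nat.le_add_right i m)
      have h2 := hcon (i + m)
      omega
    have he : ∀ m : ℕ, (st θ (i + m)).2 = (st θ i).2 - m * θ L := by
      intro m
      induction m with
      | zero => simp
      | succ m ihm =>
        rcases step_cases θ (i + m) with h | h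
        · have e := h.2.2
          rw [hl m, ihm] at e
          rw [← add_assoc, e]
          push_cast
          ring
        · exfalso
          have e := h.2.1
          rw [hl m] at e
          have e2 := hl (m + 1)
          rw [← add_assoc] at e2
          omega
    obtain ⟨m, hm⟩ := exists_nat_gt ((st θ i).2 / θ L)
    have h1 : (st θ i).2 < m * θ L := by
      rwa [div_lt_iff₀ (hθ L)] at hm
    have h2 := (inv θ hθ (i + m)).1
    have h3 := bb_pos ((st θ (i + m)).1 + 1)
    rw [he m] at h2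
    linarith

theorem seq : SEQ := by
  intro θ hθ
  refine ⟨fun i => (st θ i).2, fun i => (st θ i).1, rfl, ?_, ?_, ?_⟩
  · intro i
    refine ⟨st_lt θ hθ i, ?_, ?_, (inv θ hθ i).2⟩
    · rcases step_cases θ i with h | h
      · simp only
        rw [h.2.2]
        linarith
      · simp only
        rw [h.2.2]
        exact h.1
    · change bb ((st θ i).1 + 1) ≤ (st θ (i + 1)).2
      rcases step_cases θ i with h | h
      · rw [h.2.2]
        linarith [h.1]
      · rw [h.2.2]
  · rw [Metric.tendsto_atTop]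
    intro δ hδ
    obtain ⟨L, hL⟩ := bb_small δ hδ
    obtain ⟨i, hi⟩ := l_unb θ hθ L
    refine ⟨i, fun n hn => ?_⟩
    have h1 : (st θ n).2 ≤ (st θ i).2 := st_anti θ hθ hn
    have h2 := (inv θ hθ i).2
    have h3 := bb_le hi
    have h4 := (inv θ hθ n).1
    have h5 := bb_pos ((st θ n).1 + 1)
    rw [Real.dist_eq, sub_zero, abs_of_pos (by linarith)]
    linarith
  · intro W hW hsum
    have hsum' : Summable (fun l => W l * bb l) := hsum
    set a : ℕ → ℝ := fun m => W m * (bb m - bb (m + 1)) with ha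
    have ha0 : ∀ m, 0 ≤ a m := fun m =>
      mul_nonneg (hW m) (sub_nonneg.2 (bb_le (Nat.le_succ m)))
    have has : Summable a := by
      apply Summable.of_nonneg_of_le ha0 _ hsum'
      intro m
      apply mul_le_mul_of_nonneg_left _ (hW m)
      linarith [bb_pos (m + 1)]
    have hash : ∀ l, Summable (fun m => a (m + l)) := fun l => (summable_nat_add_iff l).2 has
    set R : ℕ → ℝ := fun l => ∑' m, a (m + l) with hR
    have hR0 : ∀ l, 0 ≤ R l := fun l => tsum_nonneg (fun m => ha0 _)
    have hRs : ∀ l, R l = a l + R (l + 1) := by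
      intro l
      simp only [hR]
      rw [(hash l).tsum_eq_zero_add]
      congr 1
      · simp
      · apply tsum_congr
        intro m
        congr 1
        ring
    set Pot : ℕ → ℝ := fun i =>
      W (st θ i).1 * ((st θ i).2 - bb ((st θ i).1 + 1)) + R ((st θ i).1 + 1) with hPot
    have hP0 : ∀ i, 0 ≤ Pot i := fun i => by
      have h1 := (inv θ hθ i).1
      have h2 := hR0 ((st θ i).1 + 1)
      have h3 := mul_nonneg (hW (st θ i).1) (sub_nonneg.2 h1.le)
      simp only [hPot]
      linarith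
    have hstep : ∀ i, ((st θ i).2 - (st θ (i + 1)).2) * W (st θ i).1 = Pot i - Pot (i + 1) := by
      intro i
      simp only [hPot]
      rcases step_cases θ i with h | h
      · rw [h.2.1, h.2.2]
        ring
      · rw [h.2.1, h.2.2, hRs ((st θ i).1 + 1)]
        simp only [ha]
        ring
    apply summable_of_sum_range_le (c := Pot 0)
    · intro i
      exact mul_nonneg (sub_nonneg.2 (st_lt θ hθ i).le) (hW _)
    · intro n
      have : ∑ i ∈ Finset.range n, ((st θ i).2 - (st θ (i + 1)).2) * W (st θ i).1 =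
          Pot 0 - Pot n := by
        simp only [hstep]
        exact Finset.sum_range_sub' Pot n
      rw [this]
      linarith [hP0 n]

end Pool.Agent.Helper14.OE
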