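import Pool.Agent.Helper14.OE.SEQ
import Pool.Agent.Helper35.OE.GoalsE

set_option autoImplicit false

namespace Pool.Agent.Helper14.OE

open Pool.Agent.Helper73.OE Pool.Agent.Helper35.OE

theorem half_pow (m : ℕ) : (1 / 2 : ℝ) ^ (12 * m) = (1 / 4096 : ℝ) ^ m := by
  rw [pow_mul]
  norm_num

theorem gSEQ : G_SEQ := by
  intro θ C hθ hC
  obtain ⟨ε, l, h0, h1, h2, h3⟩ := seq (fun m => min (θ m) (θ m ^ 2))
    (fun m => lt_min (hθ m) (pow_pos (hθ m) 2))
  have hpos : ∀ i, 0 < ε (i + 1) := fun i =>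
    lt_of_lt_of_le (by positivity) (h1 i).2.2.1
  refine ⟨ε, l, h0, fun i => ⟨hpos i, (h1 i).1⟩, ?_, ?_, h2, ?_⟩
  · intro i
    rw [← half_pow, ← half_pow]
    exact ⟨(h1 i).2.2.1.trans (h1 i).1.le, (h1 i).2.2.2⟩
  · intro i
    exact (h1 i).2.1.trans (min_le_left _ _)
  · have hW := h3 (fun m => 1 + C * 2048 ^ m) (fun m => by positivity) (by
      have e : (fun m : ℕ => (1 + C * 2048 ^ m) * (1 / 2 : ℝ) ^ (12 * m)) =
          fun m : ℕ => (1 / 4096 : ℝ) ^ m + C * (1 / 2 : ℝ) ^ m := by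
        funext m
        rw [half_pow, add_mul, one_mul, mul_assoc, ← mul_pow]
        norm_num
      rw [e]
      exact (summable_geometric_of_lt_one (by norm_num) (by norm_num)).add
        ((summable_geometric_of_lt_one (by norm_num) (by norm_num)).mul_left C))
    apply Summable.of_nonneg_of_le _ _ hW
    · intro i
      have hd : 0 ≤ ε i - ε (i + 1) := sub_nonneg.2 (h1 i).1.le
      positivity
    · intro i
      have hd : 0 ≤ ε i - ε (i + 1) := sub_nonneg.2 (h1 i).1.le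
      have hle : ε i - ε (i + 1) ≤ θ (l i) ^ 2 := (h1 i).2.1.trans (min_le_right _ _)
      have hsq : ((ε i - ε (i + 1)) / θ (l i)) ^ 2 ≤ ε i - ε (i + 1) := by
        rw [div_pow, div_le_iff₀ (pow_pos (hθ _) 2), sq]
        exact mul_le_mul_of_nonneg_left hle hd
      have : (ε i - ε (i + 1)) * (1 + C * 2048 ^ l i) =
          (ε i - ε (i + 1)) + C * (ε i - ε (i + 1)) * 2048 ^ l i := by ring
      rw [this]
      linarith

end Pool.Agent.Helper14.OE
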